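import Mathlib
import Pool.Agent.H933R3.Ball
import Pool.Agent.Helper175.NS.Sub

set_option autoImplicit false

/-!
# Chains of stellar exchanges, with local checks

Complexes are given by the bit masks (`< 2^31`) of their facets.  The vertex `31` is used as the
new vertex of the stellar subdivisions.
-/

namespace Pool.Agent.W296.NP

open Finset Pool.Agent.Helper175.NS

/-- the set with a given bit mask -/
def de (m : ℕ) : Finset ℕ := (range 32).filter (fun i => m.testBit i = true)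

theorem mem_de {m n : ℕ} : n ∈ de m ↔ n < 32 ∧ m.testBit n = true := by
  rw [de, mem_filter, mem_range]

/-- the family of sets with given bit masks -/
def deL (l : List ℕ) : Finset (Finset ℕ) := (l.map de).toFinset

theorem mem_deL {l : List ℕ} {A : Finset ℕ} : A ∈ deL l ↔ ∃ m ∈ l, de m = A := by
  rw [deL, List.mem_toFinset, List.mem_map]

/-- the elements of a mask -/
def bs (m : ℕ) : List ℕ := (List.range 32).filter (fun i => m.testBit i)

theorem mem_bs {m n : ℕ} : n ∈ bs m ↔ n ∈ de m := by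
  rw [bs, List.mem_filter, List.mem_range, mem_de]

theorem testBit_lt {m i : ℕ} (hm : m < 2 ^ 31) (hi : 31 ≤ i) : m.testBit i = false :=
  Nat.testBit_eq_false_of_lt (hm.trans_le (Nat.pow_le_pow_right (by norm_num) hi))

theorem not_mem_31 {m : ℕ} (hm : m < 2 ^ 31) : 31 ∉ de m := by
  rw [mem_de, testBit_lt hm le_rfl]
  simp

theorem land_eq' {m ρ : ℕ} (hρ : ρ < 2 ^ 31) : m &&& ρ = ρ ↔ de ρ ⊆ de m := by
  constructor
  · intro h n hn
    rw [mem_de] at hn ⊢
    refine ⟨hn.1, ?_⟩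
    have h1 := congrArg (fun k => Nat.testBit k n) h
    simp only [Nat.testBit_land, hn.2, Bool.and_true] at h1
    exact h1
  · intro h
    apply Nat.eq_of_testBit_eq
    intro i
    rw [Nat.testBit_land]
    rcases Nat.lt_or_ge i 32 with hi | hi
    · cases h1 : ρ.testBit i with
      | false => simp
      | true =>
        have h2 := h (mem_de.2 ⟨hi, h1⟩)
        rw [mem_de] at h2
        simp [h2.2]
    · simp [testBit_lt hρ (by omega : 31 ≤ i)]

theorem de_swap {m z v : ℕ} (hz : z ∈ de m) (hv : v < 32) (hzv : z ≠ v) :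
    de ((m ^^^ 2 ^ z) ||| 2 ^ v) = insert v ((de m).erase z) := by
  rw [mem_de] at hz
  ext n
  rw [mem_insert, mem_erase, mem_de, mem_de, Nat.testBit_lor, Nat.testBit_xor,
    Nat.testBit_two_pow, Nat.testBit_two_pow]
  by_cases h1 : n = v
  · subst h1
    simp [hv]
  · by_cases h2 : n = z
    · subst h2
      simp [hz.2, h1, Ne.symm h1]
    · simp [h1, h2, Ne.symm h1, Ne.symm h2]

/-- the part of the stellar subdivision coming from the facets that contain `ρ` -/
def starP (a : List ℕ) (ρ : ℕ) : List ℕ :=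
  a.flatMap (fun m => (bs ρ).map (fun z => (m ^^^ 2 ^ z) ||| 2 ^ 31))

/-- the facets that contain `ρ` -/
def inP (l : List ℕ) (ρ : ℕ) : List ℕ := l.filter (fun m => Nat.beq (m &&& ρ) ρ)

/-- the facets that do not contain `ρ` -/
def outP (l : List ℕ) (ρ : ℕ) : List ℕ := l.filter (fun m => !Nat.beq (m &&& ρ) ρ)

theorem beq_iff {a b : ℕ} : Nat.beq a b = true ↔ a = b :=
  ⟨Nat.eq_of_beq_eq_true, fun h => by subst h; exact Nat.beq_refl a⟩

theorem mem_inP {l : List ℕ} {ρ m : ℕ} (hρ : ρ < 2 ^ 31) :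
    m ∈ inP l ρ ↔ m ∈ l ∧ de ρ ⊆ de m := by
  rw [inP, List.mem_filter, beq_iff, land_eq' hρ]

theorem mem_outP {l : List ℕ} {ρ m : ℕ} (hρ : ρ < 2 ^ 31) :
    m ∈ outP l ρ ↔ m ∈ l ∧ ¬ de ρ ⊆ de m := by
  rw [outP, List.mem_filter, Bool.not_eq_true', ← Bool.not_eq_true, beq_iff, land_eq' hρ]

theorem star_deL (l : List ℕ) (ρ : ℕ) (hρ : ρ < 2 ^ 31) :
    star (deL l) (de ρ) 31 = deL (outP l ρ) ∪ deL (starP (inP l ρ) ρ) := by
  have h31 := not_mem_31 hρ
  ext A
  rw [mem_star, mem_union, mem_deL, mem_deL, mem_deL]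
  constructor
  · rintro (⟨⟨m, hm, rfl⟩, h2⟩ | ⟨F, h1, h2, z, hz, rfl⟩)
    · exact Or.inl ⟨m, (mem_outP hρ).2 ⟨hm, h2⟩, rfl⟩
    · obtain ⟨m, hm, rfl⟩ := mem_deL.1 h1
      refine Or.inr ⟨(m ^^^ 2 ^ z) ||| 2 ^ 31, ?_, ?_⟩
      · rw [starP, List.mem_flatMap]
        refine ⟨m, (mem_inP hρ).2 ⟨hm, h2⟩, ?_⟩
        rw [List.mem_map]
        exact ⟨z, mem_bs.2 hz, rfl⟩
      · rw [de_swap (v := 31) (h2 hz) (by norm_num) (fun h => h31 (by rw [← h]; exact hz))]
  · rintro (⟨m, hm, rfl⟩ | ⟨m', hm', rfl⟩)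
    · obtain ⟨h1, h2⟩ := (mem_outP hρ).1 hm
      exact Or.inl ⟨⟨m, h1, rfl⟩, h2⟩
    · rw [starP, List.mem_flatMap] at hm'
      obtain ⟨m, hm, h1⟩ := hm'
      rw [List.mem_map] at h1
      obtain ⟨z, hz, rfl⟩ := h1
      rw [mem_bs] at hz
      obtain ⟨h2, h3⟩ := (mem_inP hρ).1 hm
      refine Or.inr ⟨de m, mem_deL.2 ⟨m, h2, rfl⟩, h3, z, hz, ?_⟩
      rw [de_swap (v := 31) (h3 hz) (by norm_num) (fun h => h31 (by rw [← h]; exact hz))]

/-- equality of lists as sets -/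
def sameL (l l' : List ℕ) : Bool :=
  l.all (fun m => l'.any (fun k => Nat.beq m k)) && l'.all (fun m => l.any (fun k => Nat.beq m k))

theorem deL_of_sameL {l l' : List ℕ} (h : sameL l l' = true) : deL l = deL l' := by
  rw [sameL, Bool.and_eq_true, List.all_eq_true, List.all_eq_true] at h
  simp only [List.any_eq_true, beq_iff] at h
  ext A
  rw [mem_deL, mem_deL]
  constructor
  · rintro ⟨m, hm, rfl⟩
    obtain ⟨k, hk, rfl⟩ := h.1 m hm
    exact ⟨m, hk, rfl⟩
  · rintro ⟨m, hm, rfl⟩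
    obtain ⟨k, hk, rfl⟩ := h.2 m hm
    exact ⟨m, hk, rfl⟩

/-- removal of repetitions -/
def nubL : List ℕ → List ℕ
  | [] => []
  | a :: t => if t.any (fun k => Nat.beq a k) then nubL t else a :: nubL t

/-- the new facets of an exchange -/
def newP (a : List ℕ) (ρ ρ' : ℕ) : List ℕ :=
  nubL (a.flatMap fun m => (bs ρ).map (fun z => (m ^^^ 2 ^ z) ||| ρ'))

/-- local check of an exchange: `a` the facets containing `ρ`, `b` the others, `a'` the new ones -/
def okE (a b a' : List ℕ) (ρ ρ' : ℕ) : Bool :=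
  sameL (starP a ρ) (starP a' ρ') && b.all (fun m => !Nat.beq (m &&& ρ') ρ') &&
    a'.all (fun m => Nat.beq (m &&& ρ') ρ' && Nat.blt m (2 ^ 31)) && Nat.blt ρ (2 ^ 31) &&
    Nat.blt ρ' (2 ^ 31) && !(bs ρ).isEmpty && !(bs ρ').isEmpty

/-- the chain -/
def chainE : List ℕ → List (ℕ × ℕ) → List ℕ → Bool
  | l, [], t => sameL l t
  | l, r :: ms, t =>
    let a := inP l r.1
    let b := outP l r.1
    let a' := newP a r.1 r.2
    okE a b a' r.1 r.2 && chainE (a' ++ b) ms t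

theorem blt_iff {a b : ℕ} : Nat.blt a b = true ↔ a < b := by
  rw [Nat.blt_eq]

theorem ne_of_bs {ρ : ℕ} (h : (bs ρ).isEmpty = false) : (de ρ).Nonempty := by
  cases hb : bs ρ with
  | nil => rw [hb] at h; simp at h
  | cons a t => exact ⟨a, mem_bs.1 (by rw [hb]; simp)⟩

theorem chainE_homeo (ms : List (ℕ × ℕ)) : ∀ l t : List ℕ, (∀ m ∈ l, m < 2 ^ 31) →
    chainE l ms t = true → Nonempty (Sp (deL l) ≃ₜ Sp (deL t)) := by
  induction ms with
  | nil =>
    intro l t _ h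
    rw [chainE] at h
    rw [deL_of_sameL h]
    exact ⟨Homeomorph.refl _⟩
  | cons r ms ih =>
    intro l t hl h
    obtain ⟨ρ, ρ'⟩ := r
    rw [chainE, Bool.and_eq_true] at h
    obtain ⟨h1, h2⟩ := h
    dsimp only at h1 h2
    set a := inP l ρ with ha
    set b := outP l ρ with hb
    set a' := newP a ρ ρ' with ha'
    simp only [okE, Bool.and_eq_true, List.all_eq_true, Bool.not_eq_true', beq_iff, blt_iff] at h1
    obtain ⟨⟨⟨⟨⟨⟨h3, h4⟩, h5⟩, h6⟩, h7⟩, h8⟩, h9⟩ := h1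
    have hl' : ∀ m ∈ a' ++ b, m < 2 ^ 31 := by
      intro m hm
      rw [List.mem_append] at hm
      rcases hm with hm | hm
      · exact (h5 m hm).2
      · exact hl m ((mem_outP h6).1 hm).1
    obtain ⟨e1⟩ := ih (a' ++ b) t hl' h2
    have hv : ∀ l : List ℕ, (∀ m ∈ l, m < 2 ^ 31) → ∀ F ∈ deL l, 31 ∉ F := by
      intro l hl F hF
      obtain ⟨m, hm, rfl⟩ := mem_deL.1 hF
      exact not_mem_31 (hl m hm)
    obtain ⟨e2⟩ := star_homeo (deL l) (de ρ) 31 (ne_of_bs h8) (hv l hl) (not_mem_31 h6)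
    obtain ⟨e3⟩ := star_homeo (deL (a' ++ b)) (de ρ') 31 (ne_of_bs h9) (hv _ hl') (not_mem_31 h7)
    have hb' : ∀ m ∈ b, ¬ de ρ' ⊆ de m := by
      intro m hm hsub
      have := h4 m hm
      rw [(beq_iff.2 ((land_eq' h7).2 hsub))] at this
      exact absurd this (by decide)
    have heq : star (deL l) (de ρ) 31 = star (deL (a' ++ b)) (de ρ') 31 := by
      rw [star_deL l ρ h6, star_deL _ ρ' h7, ← ha, ← hb, deL_of_sameL h3]
      have e4 : deL (outP (a' ++ b) ρ') = deL b := by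
        ext A
        rw [mem_deL, mem_deL]
        constructor
        · rintro ⟨m, hm, rfl⟩
          obtain ⟨hm1, hm2⟩ := (mem_outP h7).1 hm
          rcases List.mem_append.1 hm1 with hm3 | hm3
          · exact absurd ((land_eq' h7).1 (h5 m hm3).1) hm2
          · exact ⟨m, hm3, rfl⟩
        · rintro ⟨m, hm, rfl⟩
          exact ⟨m, (mem_outP h7).2 ⟨List.mem_append.2 (Or.inr hm), hb' m hm⟩, rfl⟩
      have e5 : deL (starP (inP (a' ++ b) ρ') ρ') = deL (starP a' ρ') := by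
        ext A
        rw [mem_deL, mem_deL]
        simp only [starP, List.mem_flatMap]
        constructor
        · rintro ⟨m, ⟨m', hm', hm⟩, rfl⟩
          obtain ⟨h10, h11⟩ := (mem_inP h7).1 hm'
          rcases List.mem_append.1 h10 with h12 | h12
          · exact ⟨m, ⟨m', h12, hm⟩, rfl⟩
          · exact absurd h11 (hb' m' h12)
        · rintro ⟨m, ⟨m', hm', hm⟩, rfl⟩
          exact ⟨m, ⟨m', (mem_inP h7).2 ⟨List.mem_append.2 (Or.inl hm'),
            (land_eq' h7).1 (h5 m' hm').1⟩, hm⟩, rfl⟩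
      rw [e4, e5]
    rw [heq] at e2
    exact ⟨(e2.symm.trans e3).trans e1⟩

end Pool.Agent.W296.NP
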