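import Mathlib
import Pool.Agent.W296.NP.Chain
import Pool.Agent.H823R2.GeoCx

set_option autoImplicit false

/-!
# The geometric complex with given facet masks, and partitions of it
-/

namespace Pool.Agent.W296.NP

open Finset Pool.Agent.Helper175.NS

/-- the set of vertices in `Fin 31` with a given mask -/
def deF (m : ℕ) : Finset (Fin 31) := univ.filter (fun i => m.testBit i = true)

theorem mem_deF {m : ℕ} {i : Fin 31} : i ∈ deF m ↔ m.testBit i = true := by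
  rw [deF, mem_filter]; simp

theorem deF_image {m : ℕ} (hm : m < 2 ^ 31) : (deF m).image Fin.val = de m := by
  ext k
  rw [mem_image]
  constructor
  · rintro ⟨i, hi, rfl⟩
    rw [mem_deF] at hi
    rw [mem_de]
    exact ⟨by have := i.2; omega, hi⟩
  · intro hk
    rw [mem_de] at hk
    have h2 : k < 31 := by
      by_contra h
      have h3 := testBit_lt hm (i := k) (by omega)
      rw [h3] at hk
      exact absurd hk.2 (by decide)
    exact ⟨⟨k, h2⟩, mem_deF.2 hk.2, rfl⟩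

/-- the abstract complex with the facet masks `l` -/
def cxA (l : List ℕ) : Pool.Agent.Helper585.Wk.Cx 31 where
  faces := insert ∅ ((l.map deF).toFinset.biUnion powerset)
  empty_mem := mem_insert_self _ _
  down := by
    intro σ hσ τ hτ
    rw [mem_insert] at hσ ⊢
    rcases hσ with rfl | hσ
    · exact Or.inl (subset_empty.1 hτ)
    · right
      rw [mem_biUnion] at hσ ⊢
      obtain ⟨F, hF, h⟩ := hσ
      exact ⟨F, hF, mem_powerset.2 (hτ.trans (mem_powerset.1 h))⟩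

theorem mem_cxA {l : List ℕ} {σ : Finset (Fin 31)} (hσ : σ.Nonempty) :
    σ ∈ (cxA l).faces ↔ ∃ m ∈ l, σ ⊆ deF m := by
  rw [cxA]
  simp only [mem_insert, mem_biUnion, List.mem_toFinset, List.mem_map, mem_powerset]
  constructor
  · rintro (rfl | ⟨F, ⟨m, hm, rfl⟩, h⟩)
    · exact absurd hσ (by simp)
    · exact ⟨m, hm, h⟩
  · rintro ⟨m, hm, h⟩
    exact Or.inr ⟨deF m, ⟨m, hm, rfl⟩, h⟩

/-- the sets of facets in `Fin 31` -/
def GsA (l : List ℕ) : Finset (Finset (Fin 31)) := (l.map deF).toFinset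

theorem mem_GsA {l : List ℕ} {F : Finset (Fin 31)} : F ∈ GsA l ↔ ∃ m ∈ l, deF m = F := by
  rw [GsA, List.mem_toFinset, List.mem_map]

theorem GsA_image {l : List ℕ} (hl : ∀ m ∈ l, m < 2 ^ 31) :
    (GsA l).image (fun F => F.image Fin.val) = deL l := by
  ext A
  rw [mem_image, mem_deL]
  constructor
  · rintro ⟨F, hF, rfl⟩
    obtain ⟨m, hm, rfl⟩ := mem_GsA.1 hF
    exact ⟨m, hm, (deF_image (hl m hm)).symm⟩
  · rintro ⟨m, hm, rfl⟩
    exact ⟨deF m, mem_GsA.2 ⟨m, hm, rfl⟩, deF_image (hl m hm)⟩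

theorem space_eq {l : List ℕ} (hl : ∃ m ∈ l, (deF m).Nonempty) :
    (cxA l).space = Sp (GsA l) := by
  ext x
  constructor
  · rintro ⟨h0, h1, σ, hσ, h2⟩
    have hne : σ.Nonempty := by
      rw [nonempty_iff_ne_empty]
      rintro rfl
      rw [sum_eq_zero (fun v _ => h2 v (by simp))] at h1
      norm_num at h1
    obtain ⟨m, hm, h3⟩ := (mem_cxA hne).1 hσ
    refine ⟨h0, deF m, mem_GsA.2 ⟨m, hm, rfl⟩, fun i hi => h2 i (fun h => hi (h3 h)), ?_⟩
    rw [← h1]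
    exact sum_subset (subset_univ _) (fun i _ hi => h2 i (fun h => hi (h3 h)))
  · rintro ⟨h0, F, hF, h1, h2⟩
    obtain ⟨m, hm, rfl⟩ := mem_GsA.1 hF
    have hne : (deF m).Nonempty := by
      rw [nonempty_iff_ne_empty]
      intro h
      rw [h, sum_empty] at h2
      norm_num at h2
    refine ⟨h0, ?_, deF m, (mem_cxA hne).2 ⟨m, hm, Subset.refl _⟩, h1⟩
    rw [← h2]
    exact (sum_subset (subset_univ _) (fun i _ hi => h1 i hi)).symm

/-- the geometric complex -/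
theorem exists_geo (l : List ℕ) (hl : ∀ m ∈ l, m < 2 ^ 31) (hne : ∃ m ∈ l, (deF m).Nonempty) :
    ∃ (K : Geometry.SimplicialComplex ℝ (EuclideanSpace ℝ (Fin 31)))
      (g : Fin 31 → EuclideanSpace ℝ (Fin 31)) (hg : Function.Injective g),
      K.faces.Finite ∧ Nonempty (K.space ≃ₜ Sp (deL l)) ∧
      (∀ τ : Finset (Fin 31), τ.Nonempty → (τ.map ⟨g, hg⟩ ∈ K.faces ↔ ∃ m ∈ l, τ ⊆ deF m)) ∧
      ∀ s ∈ K.faces, ∃ τ : Finset (Fin 31), τ.map ⟨g, hg⟩ = s := by
  classical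
  let b := (EuclideanSpace.basisFun (Fin 31) ℝ).toBasis
  let g : Fin 31 → EuclideanSpace ℝ (Fin 31) := b
  have hg : Function.Injective g := b.injective
  have hai : AffineIndependent ℝ g := b.linearIndependent.affineIndependent
  let L := cxA l
  let A : PreAbstractSimplicialComplex (EuclideanSpace ℝ (Fin 31)) :=
    { faces := (fun τ : Finset (Fin 31) => τ.map ⟨g, hg⟩) '' {τ | τ ∈ L.faces ∧ τ.Nonempty}
      isRelLowerSet_faces := by
        rintro _ ⟨τ, ⟨hτ, hne⟩, rfl⟩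
        refine ⟨by simpa using hne, ?_⟩
        intro s hs hsne
        refine ⟨τ.filter (fun i => g i ∈ s), ⟨L.down τ hτ _ (Finset.filter_subset _ _), ?_⟩, ?_⟩
        · obtain ⟨p, hp⟩ := hsne
          obtain ⟨i, hi, rfl⟩ := Finset.mem_map.1 (hs hp)
          exact ⟨i, Finset.mem_filter.2 ⟨hi, hp⟩⟩
        · ext p
          rw [Finset.mem_map]
          constructor
          · rintro ⟨i, hi, rfl⟩
            exact (Finset.mem_filter.1 hi).2
          · intro hp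
            obtain ⟨i, hi, rfl⟩ := Finset.mem_map.1 (hs hp)
            exact ⟨i, Finset.mem_filter.2 ⟨hi, hp⟩, rfl⟩ }
  let K : Geometry.SimplicialComplex ℝ (EuclideanSpace ℝ (Fin 31)) :=
    Geometry.SimplicialComplex.ofAffineIndependent A (by
      refine hai.range.mono ?_
      intro p hp
      simp only [Set.mem_iUnion, Finset.mem_coe] at hp
      obtain ⟨_, ⟨τ, _, rfl⟩, hp⟩ := hp
      obtain ⟨i, hi, rfl⟩ := Finset.mem_map.1 hp
      exact ⟨i, rfl⟩)
  have hK : K.faces = (fun τ : Finset (Fin 31) => τ.map ⟨g, hg⟩) ''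
      {τ | τ ∈ L.faces ∧ τ.Nonempty} := rfl
  have h : ∀ τ : Finset (Fin 31), τ.Nonempty → (τ ∈ L.faces ↔ τ.map ⟨g, hg⟩ ∈ K.faces) := by
    intro τ hne
    rw [hK]
    constructor
    · intro hτ
      exact ⟨τ, ⟨hτ, hne⟩, rfl⟩
    · rintro ⟨τ', ⟨hτ', -⟩, he⟩
      have := Finset.map_injective _ he
      rwa [← this]
  have hr : ∀ s ∈ K.faces, ∃ τ : Finset (Fin 31), τ.map ⟨g, hg⟩ = s := by
    intro s hs
    rw [hK] at hs
    obtain ⟨τ, -, rfl⟩ := hs
    exact ⟨τ, rfl⟩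
  obtain ⟨e1⟩ := Pool.Agent.H823R2.space_homeo K L g hg h hr
  obtain ⟨e2⟩ := relabel_homeo (GsA l) (Fin.val : Fin 31 → ℕ) univ (fun F _ => subset_univ F)
    (Fin.val_injective.injOn)
  rw [GsA_image hl] at e2
  have e3 : L.space = Sp (GsA l) := space_eq hne
  refine ⟨K, g, hg, Pool.Agent.H823R2.faces_finite K L g hg h hr, ?_, ?_, hr⟩
  · rw [e3] at e1
    exact ⟨e1.symm.trans e2.symm⟩
  · intro τ hτ
    rw [← h τ hτ]
    exact mem_cxA hτ

/-- A partition into intervals, for a complex given by its facet masks: `r m` is the lower end of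
the interval with the upper end `de m`. -/
structure Part (l : List ℕ) (r : ℕ → Finset ℕ) : Prop where
  sub : ∀ m ∈ l, r m ⊆ de m
  ex : ∀ m ∈ l, ∀ σ ⊆ de m, ∃ m' ∈ l, r m' ⊆ σ ∧ σ ⊆ de m'
  uniq : ∀ m ∈ l, ∀ m' ∈ l, ∀ σ, r m ⊆ σ → σ ⊆ de m → r m' ⊆ σ → σ ⊆ de m' → m = m'

theorem deF_inj {m m' : ℕ} (hm : m < 2 ^ 31) (hm' : m' < 2 ^ 31) (h : deF m = deF m') :
    m = m' := by
  apply Nat.eq_of_testBit_eq
  intro i
  rcases Nat.lt_or_ge i 31 with hi | hi
  · have h1 : (⟨i, hi⟩ : Fin 31) ∈ deF m ↔ (⟨i, hi⟩ : Fin 31) ∈ deF m' := by rw [h]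
    rw [mem_deF, mem_deF] at h1
    exact Bool.eq_iff_iff.2 h1
  · rw [testBit_lt hm hi, testBit_lt hm' hi]

/-- If every finite geometric complex homeomorphic to a ball is partitionable, then so is the
complex with facet masks `l`, if it is a ball and its facets have four vertices. -/
theorem part_of_main {l : List ℕ} {t : ℕ} (hl : ∀ m ∈ l, m < 2 ^ 31)
    (hcard : ∀ m ∈ l, (deF m).card = 4) (hne : l ≠ [])
    (hball : Nonempty (Sp (deL l) ≃ₜ Sp (deL [t]))) (ht : (de t).card = 4)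
    (H : ∀ (n d : ℕ) (K : Geometry.SimplicialComplex ℝ (EuclideanSpace ℝ (Fin n))),
      K.faces.Finite →
      Nonempty (↥K.space ≃ₜ ↥(Metric.closedBall (0 : EuclideanSpace ℝ (Fin d)) 1)) →
      ∃ R : Finset (EuclideanSpace ℝ (Fin n)) → Finset (EuclideanSpace ℝ (Fin n)),
        (∀ F ∈ K.facets, R F ⊆ F) ∧
        ∀ σ : Finset (EuclideanSpace ℝ (Fin n)), (σ = ∅ ∨ σ ∈ K.faces) →
          ∃! F, F ∈ K.facets ∧ R F ⊆ σ ∧ σ ⊆ F) :
    ∃ r, Part l r := by
  classical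
  obtain ⟨m₀, hm₀⟩ := List.exists_mem_of_ne_nil l hne
  have hF4 : ∀ m ∈ l, (deF m).Nonempty := fun m hm => card_pos.1 (by rw [hcard m hm]; norm_num)
  obtain ⟨K, g, hg, hfin, ⟨e1⟩, hK, hr⟩ := exists_geo l hl ⟨m₀, hm₀, hF4 m₀ hm₀⟩
  obtain ⟨e2⟩ := hball
  have h1 : deL [t] = {de t} := rfl
  rw [h1] at e2
  obtain ⟨e3⟩ := Pool.Agent.H933R3.simplex_ball (de t) 3 ht
  obtain ⟨R, hR1, hR2⟩ := H 31 3 K hfin ⟨(e1.trans e2).trans e3⟩
  have hfac : ∀ s, s ∈ K.facets ↔ ∃ m ∈ l, (deF m).map ⟨g, hg⟩ = s := by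
    intro s
    rw [Geometry.SimplicialComplex.mem_facets]
    constructor
    · rintro ⟨hs, hmax⟩
      obtain ⟨τ, rfl⟩ := hr s hs
      have hτ : τ.Nonempty := by simpa using K.nonempty_of_mem_faces hs
      obtain ⟨m, hm, hτm⟩ := (hK τ hτ).1 hs
      refine ⟨m, hm, ?_⟩
      have := hmax ((deF m).map ⟨g, hg⟩) ((hK _ (hF4 m hm)).2 ⟨m, hm, Subset.refl _⟩)
        (map_subset_map.2 hτm)
      exact this.symm
    · rintro ⟨m, hm, rfl⟩
      refine ⟨(hK _ (hF4 m hm)).2 ⟨m, hm, Subset.refl _⟩, ?_⟩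
      intro s hs hsub
      obtain ⟨τ, rfl⟩ := hr s hs
      have hτ : τ.Nonempty := by simpa using K.nonempty_of_mem_faces hs
      obtain ⟨m', hm', hτm⟩ := (hK τ hτ).1 hs
      rw [map_subset_map] at hsub
      have h5 : deF m = deF m' := eq_of_subset_of_card_le (hsub.trans hτm)
        (by rw [hcard m hm, hcard m' hm'])
      have h6 : τ = deF m := Subset.antisymm (h5 ▸ hτm) hsub
      rw [h6]
  let r : ℕ → Finset ℕ := fun m =>
    ((univ : Finset (Fin 31)).filter (fun i => g i ∈ R ((deF m).map ⟨g, hg⟩))).image Fin.val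
  have hrmem : ∀ m (i : Fin 31), (i : ℕ) ∈ r m ↔ g i ∈ R ((deF m).map ⟨g, hg⟩) := by
    intro m i
    simp only [r, mem_image, mem_filter, mem_univ, true_and]
    constructor
    · rintro ⟨j, hj, hji⟩
      have : j = i := Fin.ext hji
      rwa [← this]
    · intro h
      exact ⟨i, h, rfl⟩
  -- translation of the interval conditions
  have htr : ∀ m ∈ l, ∀ τ : Finset (Fin 31),
      (R ((deF m).map ⟨g, hg⟩) ⊆ τ.map ⟨g, hg⟩ ↔ r m ⊆ τ.image Fin.val) := by
    intro m hm τ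
    constructor
    · intro h k hk
      simp only [r, mem_image, mem_filter, mem_univ, true_and] at hk
      obtain ⟨i, hi, rfl⟩ := hk
      obtain ⟨j, hj, hji⟩ := mem_map.1 (h hi)
      have : j = i := hg hji
      exact mem_image.2 ⟨j, hj, by rw [this]⟩
    · intro h p hp
      have h2 := hR1 _ ((hfac _).2 ⟨m, hm, rfl⟩) hp
      obtain ⟨i, hi, rfl⟩ := mem_map.1 h2
      have h3 := h ((hrmem m i).2 hp)
      obtain ⟨j, hj, hji⟩ := mem_image.1 h3
      have : j = i := Fin.ext hji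
      exact mem_map.2 ⟨i, by rwa [← this], rfl⟩
  have himg : ∀ (m : ℕ), m ∈ l → ∀ τ : Finset (Fin 31),
      (τ.map ⟨g, hg⟩ ⊆ (deF m).map ⟨g, hg⟩ ↔ τ.image Fin.val ⊆ de m) := by
    intro m hm τ
    rw [map_subset_map, ← deF_image (hl m hm)]
    exact (image_subset_image_iff Fin.val_injective).symm
  have hlift : ∀ m ∈ l, ∀ σ ⊆ de m, ∃ τ : Finset (Fin 31), τ.image Fin.val = σ := by
    intro m hm σ hσ
    refine ⟨univ.filter (fun i => (i : ℕ) ∈ σ), ?_⟩
    ext k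
    simp only [mem_image, mem_filter, mem_univ, true_and]
    constructor
    · rintro ⟨i, hi, rfl⟩
      exact hi
    · intro hk
      have h2 := hσ hk
      rw [← deF_image (hl m hm)] at h2
      obtain ⟨i, -, rfl⟩ := mem_image.1 h2
      exact ⟨i, hk, rfl⟩
  have hface : ∀ m ∈ l, ∀ τ : Finset (Fin 31), τ.image Fin.val ⊆ de m →
      (τ.map ⟨g, hg⟩ = ∅ ∨ τ.map ⟨g, hg⟩ ∈ K.faces) := by
    intro m hm τ hτ
    rcases τ.eq_empty_or_nonempty with rfl | hne
    · exact Or.inl (map_empty _)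
    · right
      refine (hK τ hne).2 ⟨m, hm, ?_⟩
      have := (himg m hm τ).2 hτ
      rwa [map_subset_map] at this
  refine ⟨r, ?_, ?_, ?_⟩
  · intro m hm
    have := (htr m hm (deF m)).1 (hR1 _ ((hfac _).2 ⟨m, hm, rfl⟩))
    rwa [deF_image (hl m hm)] at this
  · intro m hm σ hσ
    obtain ⟨τ, rfl⟩ := hlift m hm σ hσ
    obtain ⟨F, ⟨hF1, hF2, hF3⟩, -⟩ := hR2 _ (hface m hm τ hσ)
    obtain ⟨m', hm', rfl⟩ := (hfac F).1 hF1
    exact ⟨m', hm', (htr m' hm' τ).1 hF2, (himg m' hm' τ).1 hF3⟩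
  · intro m hm m' hm' σ h1 h2 h3 h4
    obtain ⟨τ, rfl⟩ := hlift m hm σ h2
    obtain ⟨F, -, huniq⟩ := hR2 _ (hface m hm τ h2)
    have h5 := huniq _ ⟨(hfac _).2 ⟨m, hm, rfl⟩, (htr m hm τ).2 h1, (himg m hm τ).2 h2⟩
    have h6 := huniq _ ⟨(hfac _).2 ⟨m', hm', rfl⟩, (htr m' hm' τ).2 h3, (himg m' hm' τ).2 h4⟩
    have h7 := map_injective _ (h5.trans h6.symm)
    exact deF_inj (hl m hm) (hl m' hm') h7

end Pool.Agent.W296.NP
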