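import Mathlib
import Pool.Agent.W296.NP.Geo

set_option autoImplicit false

/-!
# A checker for the non-existence of partitions

The state is a list of facets (all of which have four vertices) together with a domain: a 16-bit
mask of possible values for the lower end of the interval, where subsets of the facet are coded
by numbers below 16.
-/

namespace Pool.Agent.W296.NP

open Finset

/-- a facet: its mask and its vertices -/
structure Fac where
  m : ℕ
  a : ℕ
  b : ℕ
  c : ℕ
  d : ℕ

/-- the mask and the vertices fit -/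
def Fac.ok (f : Fac) : Prop := bs f.m = [f.a, f.b, f.c, f.d]

theorem Fac.ok.mem {f : Fac} (h : f.ok) {x : ℕ} :
    x ∈ de f.m ↔ x = f.a ∨ x = f.b ∨ x = f.c ∨ x = f.d := by
  rw [← mem_bs, h]
  simp

theorem Fac.ok.inj {f f' : Fac} (h : f.ok) (h' : f'.ok) (he : f.m = f'.m) : f = f' := by
  have h1 : [f.a, f.b, f.c, f.d] = [f'.a, f'.b, f'.c, f'.d] := by
    rw [← h, ← h', he]
  cases f
  cases f'
  simp only [List.cons.injEq, and_true] at h1
  simp only at he
  simp [h1, he]

/-- the number of a subset of a facet -/
noncomputable def code (R : Finset ℕ) (f : Fac) : ℕ :=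
  (cond (decide (f.a ∈ R)) 1 0) + (cond (decide (f.b ∈ R)) 2 0) + (cond (decide (f.c ∈ R)) 4 0) +
    (cond (decide (f.d ∈ R)) 8 0)

/-- the numbers of the subsets of the face `s` of the facet `f`, as a mask -/
def SS (s : ℕ) (f : Fac) : ℕ :=
  (cond (s.testBit f.a) 3 1) * (cond (s.testBit f.b) 5 1) * (cond (s.testBit f.c) 17 1) *
    (cond (s.testBit f.d) 257 1)

theorem bool_key : ∀ x0 x1 x2 x3 y0 y1 y2 y3 : Bool,
    Nat.testBit ((cond y0 3 1) * (cond y1 5 1) * (cond y2 17 1) * (cond y3 257 1))
      ((cond x0 1 0) + (cond x1 2 0) + (cond x2 4 0) + (cond x3 8 0)) =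
    ((!x0 || y0) && (!x1 || y1) && (!x2 || y2) && (!x3 || y3)) := by
  decide

theorem code_lt : ∀ x0 x1 x2 x3 : Bool,
    (cond x0 1 0) + (cond x1 2 0) + (cond x2 4 0) + (cond x3 8 0) < 16 := by
  decide

theorem cover_iff {f : Fac} (hf : f.ok) {R : Finset ℕ} (hR : R ⊆ de f.m) (s : ℕ) :
    (SS s f).testBit (code R f) = true ↔ R ⊆ de s := by
  have hv : ∀ x, x ∈ de f.m → x < 32 := fun x hx => (mem_de.1 hx).1
  have ha := hv f.a (hf.mem.2 (by simp))
  have hb := hv f.b (hf.mem.2 (by simp))
  have hc := hv f.c (hf.mem.2 (by simp))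
  have hd := hv f.d (hf.mem.2 (by simp))
  rw [SS, code, bool_key]
  simp only [Bool.and_eq_true, Bool.or_eq_true, Bool.not_eq_true', decide_eq_false_iff_not]
  constructor
  · rintro ⟨⟨⟨h1, h2⟩, h3⟩, h4⟩ x hx
    rw [mem_de]
    rcases hf.mem.1 (hR hx) with rfl | rfl | rfl | rfl
    · exact ⟨ha, h1.resolve_left (fun h => h hx)⟩
    · exact ⟨hb, h2.resolve_left (fun h => h hx)⟩
    · exact ⟨hc, h3.resolve_left (fun h => h hx)⟩
    · exact ⟨hd, h4.resolve_left (fun h => h hx)⟩
  · intro h
    have key : ∀ x, x ∉ R ∨ s.testBit x = true := by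
      intro x
      by_cases hx : x ∈ R
      · exact Or.inr (mem_de.1 (h hx)).2
      · exact Or.inl hx
    exact ⟨⟨⟨key _, key _⟩, key _⟩, key _⟩

/-- forces the evaluation of a number in the kernel -/
def force (n : ℕ) (k : ℕ → Bool) : Bool := Nat.rec (k 0) (fun m _ => k (Nat.succ m)) n

theorem force_eq (n : ℕ) (k : ℕ → Bool) : force n k = k n := by
  cases n <;> rfl

/-- the mask of the pairs (facet, subset) such that `v` is in the facet -/
def bV (v : ℕ) : List Fac → ℕ
  | [] => 0
  | f :: t => ((bV v t) <<< 16) ||| (cond (f.m.testBit v) 65535 0)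

/-- the subsets of the facet that do not contain `v` -/
def lU (v : ℕ) (f : Fac) : ℕ :=
  cond (Nat.beq v f.a) 21845 (cond (Nat.beq v f.b) 13107 (cond (Nat.beq v f.c) 3855
    (cond (Nat.beq v f.d) 255 65535)))

/-- the mask of the pairs (facet, subset) such that `v` is not in the subset -/
def bU (v : ℕ) : List Fac → ℕ
  | [] => 0
  | f :: t => ((bU v t) <<< 16) ||| lU v f

theorem testBit_block {a b i c : ℕ} (hb : b < 65536) (hc : c < 16) :
    ((a <<< 16) ||| b).testBit (16 * (i + 1) + c) = a.testBit (16 * i + c) := by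
  rw [Nat.testBit_lor, Nat.testBit_shiftLeft]
  have h1 : b.testBit (16 * (i + 1) + c) = false := by
    apply Nat.testBit_eq_false_of_lt
    calc b < 2 ^ 16 := by norm_num; exact hb
      _ ≤ 2 ^ (16 * (i + 1) + c) := Nat.pow_le_pow_right (by norm_num) (by omega)
  have h2 : 16 * (i + 1) + c - 16 = 16 * i + c := by omega
  have h3 : 16 * (i + 1) + c ≥ 16 := by omega
  rw [h1, h2]
  simp [h3]

theorem testBit_block0 {a b c : ℕ} (hc : c < 16) :
    ((a <<< 16) ||| b).testBit c = b.testBit c := by
  rw [Nat.testBit_lor, Nat.testBit_shiftLeft]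
  have h3 : ¬ c ≥ 16 := by omega
  simp [h3]

theorem lU_lt (v : ℕ) (f : Fac) : lU v f < 65536 := by
  unfold lU
  cases Nat.beq v f.a <;> cases Nat.beq v f.b <;> cases Nat.beq v f.c <;>
    cases Nat.beq v f.d <;> decide

theorem bV_testBit (v : ℕ) (fs : List Fac) : ∀ (i : ℕ) (hi : i < fs.length) (c : ℕ), c < 16 →
    (bV v fs).testBit (16 * i + c) = fs[i].m.testBit v := by
  induction fs with
  | nil => intro i hi; simp at hi
  | cons f t ih =>
    intro i hi c hc
    cases i with
    | zero =>
      rw [bV, Nat.mul_zero, Nat.zero_add, testBit_block0 hc]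
      simp only [List.getElem_cons_zero]
      have h1 : ∀ n < 16, Nat.testBit 65535 n = true := by decide
      cases f.m.testBit v with
      | true => exact h1 c hc
      | false => exact Nat.zero_testBit c
    | succ i =>
      rw [bV, testBit_block (by cases f.m.testBit v <;> decide) hc]
      simp only [List.length_cons] at hi
      rw [ih i (by omega) c hc]
      rfl

theorem bU_testBit (v : ℕ) (fs : List Fac) : ∀ (i : ℕ) (hi : i < fs.length) (c : ℕ), c < 16 →
    (bU v fs).testBit (16 * i + c) = (lU v fs[i]).testBit c := by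
  induction fs with
  | nil => intro i hi; simp at hi
  | cons f t ih =>
    intro i hi c hc
    cases i with
    | zero =>
      rw [bU, Nat.mul_zero, Nat.zero_add, testBit_block0 hc]
      rfl
    | succ i =>
      rw [bU, testBit_block (lU_lt v f) hc]
      simp only [List.length_cons] at hi
      rw [ih i (by omega) c hc]
      rfl

theorem lU_code {f : Fac} (hf : f.ok) {R : Finset ℕ} (hR : R ⊆ de f.m) (v : ℕ) :
    (lU v f).testBit (code R f) = true ↔ v ∉ R := by
  have hnd : [f.a, f.b, f.c, f.d].Nodup := by
    rw [← hf, bs]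
    exact List.Nodup.filter _ List.nodup_range
  simp only [List.nodup_cons, List.mem_cons, List.not_mem_nil, or_false, not_or, not_false_iff,
    List.nodup_nil, and_true] at hnd
  obtain ⟨⟨hab, hac, had⟩, ⟨hbc, hbd⟩, hcd⟩ := hnd
  have k0 : ∀ x0 x1 x2 x3 : Bool, Nat.testBit 21845
      ((cond x0 1 0) + (cond x1 2 0) + (cond x2 4 0) + (cond x3 8 0)) = !x0 := by decide
  have k1 : ∀ x0 x1 x2 x3 : Bool, Nat.testBit 13107
      ((cond x0 1 0) + (cond x1 2 0) + (cond x2 4 0) + (cond x3 8 0)) = !x1 := by decide
  have k2 : ∀ x0 x1 x2 x3 : Bool, Nat.testBit 3855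
      ((cond x0 1 0) + (cond x1 2 0) + (cond x2 4 0) + (cond x3 8 0)) = !x2 := by decide
  have k3 : ∀ x0 x1 x2 x3 : Bool, Nat.testBit 255
      ((cond x0 1 0) + (cond x1 2 0) + (cond x2 4 0) + (cond x3 8 0)) = !x3 := by decide
  have k4 : ∀ x0 x1 x2 x3 : Bool, Nat.testBit 65535
      ((cond x0 1 0) + (cond x1 2 0) + (cond x2 4 0) + (cond x3 8 0)) = true := by decide
  unfold lU
  cases h0 : Nat.beq v f.a with
  | true =>
    rw [beq_iff] at h0
    subst h0
    rw [cond_true, code, k0]
    simp
  | false =>
    cases h1 : Nat.beq v f.b with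
    | true =>
      rw [beq_iff] at h1
      subst h1
      rw [cond_false, cond_true, code, k1]
      simp
    | false =>
      cases h2 : Nat.beq v f.c with
      | true =>
        rw [beq_iff] at h2
        subst h2
        rw [cond_false, cond_false, cond_true, code, k2]
        simp
      | false =>
        cases h3 : Nat.beq v f.d with
        | true =>
          rw [beq_iff] at h3
          subst h3
          rw [cond_false, cond_false, cond_false, cond_true, code, k3]
          simp
        | false =>
          rw [cond_false, cond_false, cond_false, cond_false, code, k4]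
          simp only [true_iff]
          intro hv
          have hn : ∀ x, Nat.beq v x = false → v ≠ x := by
            intro x hx h
            rw [beq_iff.2 h] at hx
            exact absurd hx (by decide)
          rcases hf.mem.1 (hR hv) with h | h | h | h
          · exact hn _ h0 h
          · exact hn _ h1 h
          · exact hn _ h2 h
          · exact hn _ h3 h

/-- the table of the masks `bV v`, `bU v` -/
def tabOf (vs : List ℕ) (fs : List Fac) : List (ℕ × ℕ × ℕ) :=
  vs.map (fun v => (v, bV v fs, bU v fs))

/-- the table, evaluated -/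
def mkTab : List ℕ → List Fac → (List (ℕ × ℕ × ℕ) → Bool) → Bool
  | [], _, k => k []
  | v :: vs, fs, k =>
    force (bV v fs) fun a => force (bU v fs) fun b => mkTab vs fs (fun t => k ((v, a, b) :: t))

theorem mkTab_eq (vs : List ℕ) (fs : List Fac) : ∀ k, mkTab vs fs k = k (tabOf vs fs) := by
  induction vs with
  | nil => intro k; rfl
  | cons v vs ih =>
    intro k
    rw [mkTab, force_eq, force_eq, ih]
    rfl

/-- the mask of the pairs (facet, subset) such that `s` is between the subset and the facet -/
def msk (s : ℕ) : List (ℕ × ℕ × ℕ) → ℕ → ℕ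
  | [], acc => acc
  | (v, a, b) :: t, acc => msk s t (acc &&& (cond (s.testBit v) a b))

theorem msk_testBit (s : ℕ) (k : ℕ) (t : List (ℕ × ℕ × ℕ)) : ∀ acc : ℕ,
    (msk s t acc).testBit k = true ↔ acc.testBit k = true ∧
      ∀ p ∈ t, (cond (s.testBit p.1) p.2.1 p.2.2).testBit k = true := by
  induction t with
  | nil => intro acc; simp [msk]
  | cons p t ih =>
    obtain ⟨v, a, b⟩ := p
    intro acc
    rw [msk, ih, Nat.testBit_land, Bool.and_eq_true]
    simp only [List.mem_cons, forall_eq_or_imp]
    tauto

section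

variable {l : List ℕ} {r : ℕ → Finset ℕ} {fs : List Fac} {n : ℕ}

/-- the assumptions on the facets -/
structure Good (l : List ℕ) (fs : List Fac) (n : ℕ) : Prop where
  n_le : n ≤ 31
  map : fs.map Fac.m = l
  ok : ∀ f ∈ fs, f.ok
  lt : ∀ f ∈ fs, f.m < 2 ^ n
  nodup : l.Nodup

theorem msk_iff (hg : Good l fs n) (hr : Part l r) {s : ℕ} (hs : s < 2 ^ n) {i : ℕ}
    (hi : i < fs.length) :
    (msk s (tabOf (List.range n) fs) (2 ^ (16 * fs.length) - 1)).testBit
      (16 * i + code (r fs[i].m) fs[i]) = true ↔ r fs[i].m ⊆ de s ∧ de s ⊆ de fs[i].m := by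
  have hf := hg.ok _ (List.getElem_mem hi)
  have hlt := hg.lt _ (List.getElem_mem hi)
  have hml : fs[i].m ∈ l := by
    rw [← hg.map]
    exact List.mem_map.2 ⟨_, List.getElem_mem hi, rfl⟩
  have hR := hr.sub _ hml
  have hc : code (r fs[i].m) fs[i] < 16 := by
    rw [code]
    exact code_lt _ _ _ _
  have hn := hg.n_le
  have hlow : ∀ {m x : ℕ}, m < 2 ^ n → x ∈ de m → x < n := by
    intro m x hm hx
    by_contra h
    have := Nat.testBit_eq_false_of_lt (hm.trans_le (Nat.pow_le_pow_right (by norm_num)
      (not_lt.1 h)))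
    rw [mem_de, this] at hx
    exact absurd hx.2 (by decide)
  rw [msk_testBit]
  have h0 : (2 ^ (16 * fs.length) - 1).testBit (16 * i + code (r fs[i].m) fs[i]) = true := by
    rw [Nat.testBit_two_pow_sub_one]
    simp only [decide_eq_true_eq]
    omega
  simp only [h0, true_and, tabOf, List.mem_map, List.mem_range]
  constructor
  · intro h
    constructor
    · intro x hx
      have hxn : x < n := hlow hlt (hR hx)
      have h1 := h (x, bV x fs, bU x fs) ⟨x, hxn, rfl⟩
      dsimp only at h1
      cases h2 : s.testBit x with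
      | true => exact mem_de.2 ⟨by omega, h2⟩
      | false =>
        rw [h2, cond_false, bU_testBit x fs i hi _ hc, lU_code hf hR] at h1
        exact absurd hx h1
    · intro x hx
      have hxn : x < n := hlow hs hx
      have h1 := h (x, bV x fs, bU x fs) ⟨x, hxn, rfl⟩
      dsimp only at h1
      rw [(mem_de.1 hx).2, cond_true, bV_testBit x fs i hi _ hc] at h1
      exact mem_de.2 ⟨by omega, h1⟩
  · rintro ⟨h1, h2⟩ p ⟨v, hv, rfl⟩
    dsimp only
    cases h3 : s.testBit v with
    | true =>
      rw [cond_true, bV_testBit v fs i hi _ hc]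
      exact (mem_de.1 (h2 (mem_de.2 ⟨by omega, h3⟩))).2
    | false =>
      rw [cond_false, bU_testBit v fs i hi _ hc, lU_code hf hR]
      intro hv
      have := (mem_de.1 (h1 hv)).2
      rw [h3] at this
      exact absurd this (by decide)

/-- the state `z` is compatible with the partition `r` -/
def Inv (r : ℕ → Finset ℕ) (fs : List Fac) (z : ℕ) : Prop :=
  ∀ (i : ℕ) (hi : i < fs.length), z.testBit (16 * i + code (r fs[i].m) fs[i]) = true

/-- the block of the facet with the index `w` -/
def fld (w : ℕ) : ℕ := 65535 <<< (16 * w)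

theorem fld_testBit {w i c : ℕ} (hc : c < 16) :
    (fld w).testBit (16 * i + c) = decide (i = w) := by
  rw [fld, Nat.testBit_shiftLeft]
  have h1 : ∀ n < 16, Nat.testBit 65535 n = true := by decide
  rcases lt_trichotomy i w with h | h | h
  · have h2 : ¬ 16 * i + c ≥ 16 * w := by omega
    simp [h2, h.ne]
  · subst h
    have h3 : 16 * i + c - 16 * i = c := by omega
    rw [h3, h1 c hc]
    simp
  · have h4 : Nat.testBit 65535 (16 * i + c - 16 * w) = false := by
      apply Nat.testBit_eq_false_of_lt
      calc 65535 < 2 ^ 16 := by norm_num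
        _ ≤ 2 ^ (16 * i + c - 16 * w) := Nat.pow_le_pow_right (by norm_num) (by omega)
    rw [h4]
    simp [h.ne']

/-- the checker; `ks` are the instructions, `z` the state, `st` the stack of open cases -/
def run (tab : List (ℕ × ℕ × ℕ)) (full N n : ℕ) : List ℕ → ℕ → List ℕ → Bool
  | [], _, _ => false
  | k :: ks, z, st =>
    force (k / 4 % 2 ^ n) fun s => force (k / 4 / 2 ^ n) fun w => Nat.blt w N &&
    match k % 4 with
    | 0 => force (msk s tab full) fun M => force (fld w) fun F =>
        Nat.beq (z &&& F &&& M) (z &&& F) &&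
        force (z ^^^ (z &&& (M ^^^ (M &&& F)))) fun z' => run tab full N n ks z' st
    | 1 => force (msk s tab full) fun M => force (fld w) fun F =>
        M.testBit (16 * w) && Nat.beq (z &&& M &&& F) (z &&& M) &&
        force (z ^^^ (z &&& (F ^^^ (F &&& M)))) fun z' => run tab full N n ks z' st
    | 2 => force (fld w) fun F => force (s <<< (16 * w)) fun A =>
        force (z ^^^ (z &&& (F ^^^ (F &&& A)))) fun z' =>
        force (z ^^^ (z &&& (F &&& A))) fun z'' => run tab full N n ks z' (z'' :: st)
    | _ => Nat.beq (z &&& fld w) 0 &&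
        match st with
        | [] => true
        | z' :: st' => run tab full N n ks z' st'

theorem code_lt16 (R : Finset ℕ) (f : Fac) : code R f < 16 := by
  rw [code]
  exact code_lt _ _ _ _

theorem getElem_inj (hg : Good l fs n) {i j : ℕ} (hi : i < fs.length) (hj : j < fs.length)
    (h : fs[i].m = fs[j].m) : i = j := by
  have hnd : (fs.map Fac.m).Nodup := by
    rw [hg.map]
    exact hg.nodup
  have h1 : (fs.map Fac.m)[i]'(by simpa using hi) = (fs.map Fac.m)[j]'(by simpa using hj) := by
    simpa using h
  exact (List.Nodup.getElem_inj_iff hnd).1 h1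

theorem mem_l (hg : Good l fs n) {i : ℕ} (hi : i < fs.length) : fs[i].m ∈ l := by
  rw [← hg.map]
  exact List.mem_map.2 ⟨_, List.getElem_mem hi, rfl⟩

theorem exists_idx (hg : Good l fs n) {m : ℕ} (hm : m ∈ l) :
    ∃ (i : ℕ) (hi : i < fs.length), fs[i].m = m := by
  rw [← hg.map, List.mem_map] at hm
  obtain ⟨f, hf, rfl⟩ := hm
  obtain ⟨i, hi, rfl⟩ := List.getElem_of_mem hf
  exact ⟨i, hi, rfl⟩

theorem run_sound (hg : Good l fs n) (hr : Part l r) (ks : List ℕ) : ∀ (z : ℕ) (st : List ℕ),
    run (tabOf (List.range n) fs) (2 ^ (16 * fs.length) - 1) fs.length n ks z st = true →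
      ¬ Inv r fs z ∧ ∀ z' ∈ st, ¬ Inv r fs z' := by
  induction ks with
  | nil =>
    intro z st h
    simp [run] at h
  | cons k ks ih =>
    intro z st h
    rw [run.eq_def] at h
    dsimp only at h
    rw [force_eq, force_eq, Bool.and_eq_true, Nat.blt_eq] at h
    obtain ⟨hw, h⟩ := h
    have hs : k / 4 % 2 ^ n < 2 ^ n := Nat.mod_lt _ (by positivity)
    set s := k / 4 % 2 ^ n
    set w := k / 4 / 2 ^ n
    split at h
    · rw [force_eq, force_eq, Bool.and_eq_true, beq_iff, force_eq] at h
      obtain ⟨h1, h2⟩ := h
      obtain ⟨h3, h4⟩ := ih _ _ h2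
      refine ⟨fun hz => h3 ?_, h4⟩
      -- `w` covers `s`
      have hMw := (msk_iff hg hr hs hw).1 (by
        have h5 := congrArg (fun k => Nat.testBit k (16 * w + code (r fs[w].m) fs[w])) h1
        simp only [Nat.testBit_land, hz w hw, fld_testBit (code_lt16 _ _), decide_true,
          Bool.true_and] at h5
        exact h5)
      intro i hi
      rw [Nat.testBit_xor, Nat.testBit_land, Nat.testBit_xor, Nat.testBit_land, hz i hi,
        fld_testBit (code_lt16 _ _)]
      by_cases hiw : i = w
      · simp [hiw]
      · have : (msk s (tabOf (List.range n) fs) (2 ^ (16 * fs.length) - 1)).testBit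
            (16 * i + code (r fs[i].m) fs[i]) = false := by
          rw [← Bool.not_eq_true]
          intro h5
          have h6 := (msk_iff hg hr hs hi).1 h5
          exact hiw (getElem_inj hg hi hw (hr.uniq _ (mem_l hg hi) _ (mem_l hg hw) (de s)
            h6.1 h6.2 hMw.1 hMw.2))
        rw [this]
        simp
    · rw [force_eq, force_eq, Bool.and_eq_true, Bool.and_eq_true, beq_iff, force_eq] at h
      obtain ⟨⟨h0, h1⟩, h2⟩ := h
      obtain ⟨h3, h4⟩ := ih _ _ h2
      refine ⟨fun hz => h3 ?_, h4⟩
      -- `s` is a face of `w`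
      have hsw : de s ⊆ de fs[w].m := by
        intro x hx
        rw [msk_testBit] at h0
        have hxn : x < n := by
          by_contra h
          have := Nat.testBit_eq_false_of_lt (hs.trans_le (Nat.pow_le_pow_right (by norm_num)
            (not_lt.1 h)))
          rw [mem_de, this] at hx
          exact absurd hx.2 (by decide)
        have h5 := h0.2 (x, bV x fs, bU x fs)
          (List.mem_map.2 ⟨x, List.mem_range.2 hxn, rfl⟩)
        dsimp only at h5
        rw [(mem_de.1 hx).2, cond_true] at h5
        have h6 := bV_testBit x fs w hw 0 (by norm_num)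
        rw [Nat.add_zero] at h6
        rw [h6] at h5
        exact mem_de.2 ⟨(mem_de.1 hx).1, h5⟩
      obtain ⟨m', hm', hc1, hc2⟩ := hr.ex _ (mem_l hg hw) (de s) hsw
      obtain ⟨j, hj, rfl⟩ := exists_idx hg hm'
      have hMj := (msk_iff hg hr hs hj).2 ⟨hc1, hc2⟩
      have hjw : j = w := by
        have h5 := congrArg (fun k => Nat.testBit k (16 * j + code (r fs[j].m) fs[j])) h1
        simp only [Nat.testBit_land, hz j hj, hMj, fld_testBit (code_lt16 _ _),
          Bool.true_and] at h5
        simpa using h5
      subst hjw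
      intro i hi
      rw [Nat.testBit_xor, Nat.testBit_land, Nat.testBit_xor, Nat.testBit_land, hz i hi,
        fld_testBit (code_lt16 _ _)]
      by_cases hiw : i = w
      · subst hiw
        rw [hMj]
        simp
      · simp [hiw]
    · rw [force_eq, force_eq, force_eq, force_eq] at h
      obtain ⟨h3, h4⟩ := ih _ _ h
      refine ⟨fun hz => ?_, fun z' hz' => h4 z' (List.mem_cons_of_mem _ hz')⟩
      cases hA : (s <<< (16 * w)).testBit (16 * w + code (r fs[w].m) fs[w]) with
      | true =>
        apply h3
        intro i hi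
        rw [Nat.testBit_xor, Nat.testBit_land, Nat.testBit_xor, Nat.testBit_land, hz i hi,
          fld_testBit (code_lt16 _ _)]
        by_cases hiw : i = w
        · subst hiw
          rw [hA]
          simp
        · simp [hiw]
      | false =>
        apply h4 _ (List.mem_cons_self)
        intro i hi
        rw [Nat.testBit_xor, Nat.testBit_land, Nat.testBit_land, hz i hi,
          fld_testBit (code_lt16 _ _)]
        by_cases hiw : i = w
        · subst hiw
          rw [hA]
          simp
        · simp [hiw]
    · rw [Bool.and_eq_true, beq_iff] at h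
      obtain ⟨h1, h2⟩ := h
      refine ⟨fun hz => ?_, ?_⟩
      · have h5 := congrArg (fun k => Nat.testBit k (16 * w + code (r fs[w].m) fs[w])) h1
        simp only [Nat.testBit_land, hz w hw, fld_testBit (code_lt16 _ _), decide_true,
          Bool.true_and, Nat.zero_testBit] at h5
        exact absurd h5 (by decide)
      · intro z' hz'
        cases st with
        | nil => simp at hz'
        | cons a st' =>
          obtain ⟨h3, h4⟩ := ih _ _ h2
          rcases List.mem_cons.1 hz' with rfl | hz'
          · exact h3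
          · exact h4 z' hz'

/-- the whole check -/
def check (fs : List Fac) (N n : ℕ) (ks : List ℕ) : Bool :=
  mkTab (List.range n) fs fun tab => force (2 ^ (16 * N) - 1) fun full =>
    run tab full N n ks full []

/-- If the checker accepts, then there is no partition. -/
theorem no_part (hg : Good l fs n) {ks : List ℕ} (h : check fs fs.length n ks = true) :
    ¬ ∃ r, Part l r := by
  rintro ⟨r, hr⟩
  rw [check, mkTab_eq, force_eq] at h
  refine (run_sound hg hr ks _ _ h).1 ?_
  intro i hi
  rw [Nat.testBit_two_pow_sub_one]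
  have := code_lt16 (r fs[i].m) fs[i]
  simp only [decide_eq_true_eq]
  omega

end

end Pool.Agent.W296.NP
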